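import Pool.Agent.H84.GW.LOB
import Pool.Agent.H76.GH.Targets

/-!
Row ZBU of the board ghw: upper bound for the zeta integral of the bump function.
-/

set_option autoImplicit false

namespace Pool.Agent.H84.GH

open MeasureTheory Pool.Agent.H34.GM Pool.Agent.H34.GU Pool.Agent.H34.GA Pool.Agent.H76.GH
open Pool.Agent.H34.GZ hiding eu eu2 cf

theorem pf_ZBU : T_ZBU := by
  intro m χ hm hχ
  obtain ⟨C, hC, h⟩ := Pool.Agent.H84.GW.l_za hm hχ (m : ℝ)
  refine ⟨C, hC, fun δ hδ hδ2 f hf t => ?_⟩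
  rw [← pow_two]
  refine h δ hδ hδ2 f hf _ ?_
  have h1 : ((1 : ℂ) / 2 + t * Complex.I - m) =
      (((1 : ℝ) / 2 - m : ℝ) : ℂ) + ((t : ℝ) : ℂ) * Complex.I := by
    push_cast
    ring
  rw [h1]
  have h2 : ((((1 : ℝ) / 2 - m : ℝ) : ℂ) + ((t : ℝ) : ℂ) * Complex.I).re = 1 / 2 - m := by
    simp
  rw [h2]
  have hm1 : (1 : ℝ) ≤ m := by exact_mod_cast hm
  rw [abs_le]
  constructor <;> linarith

end Pool.Agent.H84.GH
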